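import Mathlib
import Pool.Agent.H8.MR.Main

/-!
# Extending total colourings of distance-3 matchings with `Δ + O(1)` colours

The question asks for `Δ + 2` colours. We show that for all graphs `Δ + C` colours suffice, with an
absolute constant `C`. Without precoloured edges this is the theorem of Molloy and Reed on the
total chromatic number, the best known upper bound.

Proof. The edges get a proper colouring with the colours `0, …, Δ` (Vizing). Then the vertices
outside `H` are coloured with the colours `0, …, Δ + C'` such that the colours of the neighbours in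
`H` (and further forbidden colours) are avoided and every vertex `x` has at most `C'` neighbours
`y` whose colour is the colour of the edge `x y`. For this we use the project HYC of the library
(`K1H34.HYC`, the theorem of Molloy and Reed for `(p,1)`-total labellings), which had no forbidden
colours: its decomposition of the graph into dense clusters and sparse vertices, its local lemmas
and its completion lemma. The sparse vertices are coloured such that every vertex has only few
neighbours with a forbidden colour; these are recoloured with new colours. In the clusters, the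
colours which are forbidden at many vertices of the cluster are removed from the palette; there are
few of them, and they are replaced by new colours. Finally the edges in conflict with the colours
of the vertices or of the edges of `H` form a graph of bounded degree, and are recoloured with new
colours.
-/

set_option autoImplicit false

namespace Pool.Agent.Results.MP_db9399_co.BoundedExcess

/-- `(c, f)` is a total-`k`-colouring of `G` (with the colours `0, …, k - 1`): adjacent vertices
get different colours, edges with a common end get different colours, and the colour of an edge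
differs from those of both its ends. -/
def TotalColouring {V : Type} (G : SimpleGraph V) (k : ℕ) (c : V → ℕ) (f : Sym2 V → ℕ) : Prop :=
  (∀ u v, G.Adj u v → c u ≠ c v) ∧
  (∀ u v w, G.Adj u v → G.Adj u w → v ≠ w → f s(u, v) ≠ f s(u, w)) ∧
  (∀ u v, G.Adj u v → f s(u, v) ≠ c u) ∧
  (∀ v, c v < k) ∧ ∀ e ∈ G.edgeSet, f e < k

/-- `(c, f)` is a total-`k`-colouring of the subgraph `H` of `G` (only the values of `c` at the
vertices of `H` and of `f` at the edges of `H` matter). -/
def TotalColouringOf {V : Type} {G : SimpleGraph V} (H : G.Subgraph) (k : ℕ) (c : V → ℕ)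
    (f : Sym2 V → ℕ) : Prop :=
  (∀ u v, H.Adj u v → c u ≠ c v) ∧
  (∀ u v w, H.Adj u v → H.Adj u w → v ≠ w → f s(u, v) ≠ f s(u, w)) ∧
  (∀ u v, H.Adj u v → f s(u, v) ≠ c u) ∧
  (∀ v ∈ H.verts, c v < k) ∧ ∀ e ∈ H.edgeSet, f e < k

/-- The colouring `(c₀, f₀)` of `H` extends to a total-`k`-colouring of `G` in which no vertex `v`
outside `H` gets a colour in `Φ v`. -/
def Extends {V : Type} {G : SimpleGraph V} (H : G.Subgraph) (k : ℕ) (Φ : V → Finset ℕ)
    (c₀ : V → ℕ) (f₀ : Sym2 V → ℕ) : Prop :=
  ∃ (c : V → ℕ) (f : Sym2 V → ℕ), TotalColouring G k c f ∧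
    (∀ v ∈ H.verts, c v = c₀ v) ∧ (∀ e ∈ H.edgeSet, f e = f₀ e) ∧ ∀ v, v ∉ H.verts → c v ∉ Φ v

/-- `H` is a distance-3 matching of `G`: every vertex of `H` has exactly one neighbour in `H`, and
different vertices of `H` which are not adjacent in `H` have distance at least 3 in `G`. -/
def DistanceThreeMatching {V : Type} {G : SimpleGraph V} (H : G.Subgraph) : Prop :=
  (∀ v ∈ H.verts, ∃! w, H.Adj v w) ∧
  ∀ u ∈ H.verts, ∀ v ∈ H.verts, u ≠ v → ¬ H.Adj u v → 3 ≤ G.edist u v

/-- **Extending total colourings with `Δ + O(1)` colours.**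

(1) There is an absolute constant `C` such that for every finite graph `G` with all degrees at most
`D`, every distance-3 matching `H` of `G` and every `k ≥ D + C`, every total-`k`-colouring of `H`
extends to a total-`k`-colouring of `G`.

(2) For every `c` there is a constant `K` with the following property. Let `G` be a finite graph
with all degrees at most `D`, let `H` be a subgraph such that every vertex of `G` has at most `c`
neighbours in `H` (for instance a subgraph whose components have at most `c` vertices and pairwise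
distance at least 3), and let `Φ v` be a set of at most `c` forbidden colours for every vertex `v`
outside `H`. Then for every `k ≥ D + K` every total-`k`-colouring of `H`, for which vertices of `H`
adjacent in `G` have different colours, extends to a total-`k`-colouring of `G` without forbidden
colours.

(3) In (2) the constant can be chosen linear in `c`, `K = C (c + 1)` with an absolute constant `C`,
for all graphs with `4 c + 2 ≤ log D`. -/
theorem result :
    (∃ C : ℕ, ∀ (V : Type) [Fintype V] (G : SimpleGraph V) (D k : ℕ) (H : G.Subgraph),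
      (∀ v, (G.neighborSet v).ncard ≤ D) → DistanceThreeMatching H → D + C ≤ k →
      ∀ (c₀ : V → ℕ) (f₀ : Sym2 V → ℕ), TotalColouringOf H k c₀ f₀ →
        Extends H k (fun _ => ∅) c₀ f₀) ∧
    (∀ c : ℕ, ∃ K : ℕ, ∀ (V : Type) [Fintype V] (G : SimpleGraph V) (D k : ℕ)
      (H : G.Subgraph) (Φ : V → Finset ℕ), (∀ v, (G.neighborSet v).ncard ≤ D) →
      (∀ v, (G.neighborSet v ∩ H.verts).ncard ≤ c) → (∀ v, (Φ v).card ≤ c) → D + K ≤ k →
      ∀ (c₀ : V → ℕ) (f₀ : Sym2 V → ℕ), TotalColouringOf H k c₀ f₀ →
        (∀ u ∈ H.verts, ∀ v ∈ H.verts, G.Adj u v → c₀ u ≠ c₀ v) → Extends H k Φ c₀ f₀) ∧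
    (∃ C : ℕ, ∀ (V : Type) [Fintype V] (G : SimpleGraph V) (D c k : ℕ)
      (H : G.Subgraph) (Φ : V → Finset ℕ), (∀ v, (G.neighborSet v).ncard ≤ D) →
      (∀ v, (G.neighborSet v ∩ H.verts).ncard ≤ c) → (∀ v, (Φ v).card ≤ c) →
      4 * (c : ℝ) + 2 ≤ Real.log D → D + C * (c + 1) ≤ k →
      ∀ (c₀ : V → ℕ) (f₀ : Sym2 V → ℕ), TotalColouringOf H k c₀ f₀ →
        (∀ u ∈ H.verts, ∀ v ∈ H.verts, G.Adj u v → c₀ u ≠ c₀ v) → Extends H k Φ c₀ f₀) := by
  obtain ⟨C, hC⟩ := Pool.Agent.H8.MR.main
  have hall : ∀ c : ℕ, ∃ K : ℕ, ∀ (V : Type) [Fintype V] (G : SimpleGraph V) (D k : ℕ)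
      (H : G.Subgraph) (Φ : V → Finset ℕ), (∀ v, (G.neighborSet v).ncard ≤ D) →
      (∀ v, (G.neighborSet v ∩ H.verts).ncard ≤ c) → (∀ v, (Φ v).card ≤ c) → D + K ≤ k →
      ∀ (c₀ : V → ℕ) (f₀ : Sym2 V → ℕ), TotalColouringOf H k c₀ f₀ →
        (∀ u ∈ H.verts, ∀ v ∈ H.verts, G.Adj u v → c₀ u ≠ c₀ v) → Extends H k Φ c₀ f₀ := by
    intro c
    obtain ⟨N, hN⟩ := exists_nat_ge (Real.exp (4 * c + 2))
    refine ⟨C * (c + 1) + N + 1, ?_⟩
    intro V _ G D k H Φ hD hP hΦ hk c₀ f₀ h0 h0'
    refine hC V G D c k H Φ hD hP hΦ (by omega) ?_ c₀ f₀ h0 h0'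
    rcases Nat.lt_or_ge N D with hlt | hge
    · left
      have h1 : Real.exp (4 * c + 2) ≤ D := by
        refine hN.trans ?_
        exact_mod_cast hlt.le
      rw [Real.le_log_iff_exp_le ((Real.exp_pos _).trans_le h1)]
      push_cast
      exact h1
    · right
      omega
  refine ⟨?_, hall, ?_⟩
  · obtain ⟨K, hK⟩ := hall 2
    refine ⟨K, ?_⟩
    intro V _ G D k H hD hH hk c₀ f₀ h0
    refine hK V G D k H (fun _ => ∅) hD (fun v => Pool.Agent.H8.TE.nbrs_dist3 hH v)
      (fun _ => by simp) hk c₀ f₀ h0 ?_
    intro u hu v hv huv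
    exact h0.1 u v (Pool.Agent.H8.TE.adj_of_dist3 hH hu hv huv)
  · refine ⟨C, ?_⟩
    intro V _ G D c k H Φ hD hP hΦ hlog hk c₀ f₀ h0 h0'
    refine hC V G D c k H Φ hD hP hΦ hk (Or.inl ?_) c₀ f₀ h0 h0'
    push_cast
    exact hlog

end Pool.Agent.Results.MP_db9399_co.BoundedExcess
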