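import Mathlib
import Pool.Agent.H8.TE.Const

/-!
# Extending total colourings when large vertices have few large neighbours

Let all degrees of the finite graph `G` be at most `D` and let `k ≥ D + 1` (`k = D + 2` in the
question). The extension problem for total-`k`-colourings is reduced to the subgraph induced by the
precoloured vertices and the vertices of degree at least `k / 2`, if for every edge `u v` which
leaves the vertex set `T` of this subgraph, `u` and `v` have together at most `k - 1` neighbours in
`T`. With the theorem `BoundedExcess` for `Δ + O(1)` colours and the theorem of the library for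
bipartite graphs, this gives the extension of all colourings of distance-3 matchings for new
classes of graphs.

Proof. After the subgraph induced by `T` is coloured, colour the edges which leave `T`. At the end
`v` in `T` the colours of `v` and of the edges in `T` are forbidden; these edges form a bipartite
graph, so the theorem of Borodin, Kostochka and Woodall on list edge colourings of bipartite graphs
applies. Finally colour the other edges and then the other vertices greedily.
-/

set_option autoImplicit false

namespace Pool.Agent.Results.MP_db9399_co.LargeNeighbours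

/-- `(c, f)` is a total-`k`-colouring of `G` (with the colours `0, …, k - 1`): adjacent vertices
get different colours, edges with a common end get different colours, and the colour of an edge
differs from those of both its ends. -/
def TotalColouring {V : Type} (G : SimpleGraph V) (k : ℕ) (c : V → ℕ) (f : Sym2 V → ℕ) : Prop :=
  (∀ u v, G.Adj u v → c u ≠ c v) ∧
  (∀ u v w, G.Adj u v → G.Adj u w → v ≠ w → f s(u, v) ≠ f s(u, w)) ∧
  (∀ u v, G.Adj u v → f s(u, v) ≠ c u) ∧
  (∀ v, c v < k) ∧ ∀ e ∈ G.edgeSet, f e < k

/-- `(c, f)` is a total-`k`-colouring of the subgraph `H` of `G` (only the values of `c` at the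
vertices of `H` and of `f` at the edges of `H` matter). -/
def TotalColouringOf {V : Type} {G : SimpleGraph V} (H : G.Subgraph) (k : ℕ) (c : V → ℕ)
    (f : Sym2 V → ℕ) : Prop :=
  (∀ u v, H.Adj u v → c u ≠ c v) ∧
  (∀ u v w, H.Adj u v → H.Adj u w → v ≠ w → f s(u, v) ≠ f s(u, w)) ∧
  (∀ u v, H.Adj u v → f s(u, v) ≠ c u) ∧
  (∀ v ∈ H.verts, c v < k) ∧ ∀ e ∈ H.edgeSet, f e < k

/-- The colouring `(c₀, f₀)` of `H` extends to a total-`k`-colouring of `G`. -/
def Extends {V : Type} {G : SimpleGraph V} (H : G.Subgraph) (k : ℕ) (c₀ : V → ℕ)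
    (f₀ : Sym2 V → ℕ) : Prop :=
  ∃ (c : V → ℕ) (f : Sym2 V → ℕ), TotalColouring G k c f ∧
    (∀ v ∈ H.verts, c v = c₀ v) ∧ ∀ e ∈ H.edgeSet, f e = f₀ e

/-- `H` is a distance-3 matching of `G`: every vertex of `H` has exactly one neighbour in `H`, and
different vertices of `H` which are not adjacent in `H` have distance at least 3 in `G`. -/
def DistanceThreeMatching {V : Type} {G : SimpleGraph V} (H : G.Subgraph) : Prop :=
  (∀ v ∈ H.verts, ∃! w, H.Adj v w) ∧
  ∀ u ∈ H.verts, ∀ v ∈ H.verts, u ≠ v → ¬ H.Adj u v → 3 ≤ G.edist u v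

/-- Every total-`k`-colouring of every distance-3 matching of `G` extends to `G`. -/
def AllExtend {V : Type} (G : SimpleGraph V) (k : ℕ) : Prop :=
  ∀ H : G.Subgraph, DistanceThreeMatching H → ∀ (c₀ : V → ℕ) (f₀ : Sym2 V → ℕ),
    TotalColouringOf H k c₀ f₀ → Extends H k c₀ f₀

/-- The number of neighbours of `v` in the set `T`. -/
noncomputable def nbrs {V : Type} (G : SimpleGraph V) (T : Set V) (v : V) : ℕ :=
  (G.neighborSet v ∩ T).ncard

/-- `G` is a graph with all degrees at most `D < k` and `T` is a set which contains all vertices of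
degree at least `k / 2`, such that for every edge `u v` with `u` outside `T` and `v` in `T` the
numbers of neighbours of `u` and of `v` in `T` add up to at most `k - 1`. -/
structure Core {V : Type} (G : SimpleGraph V) (D k : ℕ) (T : Set V) : Prop where
  deg : ∀ v, (G.neighborSet v).ncard ≤ D
  k_le : D + 1 ≤ k
  large : ∀ v, k ≤ 2 * (G.neighborSet v).ncard → v ∈ T
  cross : ∀ u v, G.Adj u v → u ∉ T → v ∈ T → nbrs G T u + nbrs G T v < k

theorem core_of {V : Type} {G : SimpleGraph V} {D k : ℕ} {T : Set V} (h : Core G D k T) :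
    Pool.Agent.H8.TE.Core G D k T :=
  ⟨h.deg, h.k_le, fun v hv => by
    by_contra hcon
    exact hv (h.large v (not_lt.1 hcon)), h.cross⟩

/-- **Extending total colourings when large vertices have few large neighbours.**

(1) Let `T` be a set as in `Core G D k T`: it contains all vertices of degree at least `k / 2`,
and the ends of an edge which leaves `T` have together at most `k - 1` neighbours in `T`. Then
every total-`k`-colouring of the subgraph induced by `T` extends to a total-`k`-colouring of `G`.

(2) For every `c` there is a constant `K` such that the following holds. Let `T` be such a set in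
which all vertices have at most `m ≤ k - K` neighbours in `T`, and let `H` be a subgraph with
vertices in `T` such that every vertex of `T` has at most `c` neighbours in `H`. Then every
total-`k`-colouring of `H`, for which vertices of `H` adjacent in `G` have different colours,
extends to a total-`k`-colouring of `G`.

(3) There is an absolute constant `C` such that the following holds. Let all degrees be at most
`D`, `k ≥ D + 1`, `C ≤ b ≤ k / 2`, and let `L` be a set which contains all vertices of degree at
least `k / 2`. If every vertex outside `L` has at most `b` neighbours in `L` and every vertex in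
`L` has at most `k - 5 - b` neighbours in `L`, then every total-`k`-colouring of every distance-3
matching of `G` extends to `G`.

(4) In particular there is `C` such that this is so if `C ≤ b < k / 2` and every vertex of degree
more than `b` has at most `k - 5 - b` neighbours of degree more than `b`; and if `k ≥ C` and every
vertex of degree at least `k / 2` has at most `k / 2 - 5` neighbours of degree at least `k / 2`.

(5) Let all degrees be at most `D` and let `H` be a distance-3 matching of `G`. Let `T` be a set
which contains the vertices of `H` and all vertices of degree at least `D / 2 + 1`, such that the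
ends of an edge which leaves `T` have together at most `D + 1` neighbours in `T`. If the subgraph
induced by `T` is bipartite, then every total-`(D + 2)`-colouring of `H` extends to `G`. -/
theorem result :
    (∀ (V : Type) [Fintype V] (G : SimpleGraph V) (D k : ℕ) (T : Set V), Core G D k T →
      ∀ (c : V → ℕ) (f : Sym2 V → ℕ), TotalColouringOf ((⊤ : G.Subgraph).induce T) k c f →
        Extends ((⊤ : G.Subgraph).induce T) k c f) ∧
    (∀ c : ℕ, ∃ K : ℕ, ∀ (V : Type) [Fintype V] (G : SimpleGraph V) (D k m : ℕ) (T : Set V),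
      Core G D k T → (∀ v ∈ T, nbrs G T v ≤ m) → m + K ≤ k →
      ∀ H : G.Subgraph, H.verts ⊆ T → (∀ v ∈ T, nbrs G H.verts v ≤ c) →
      ∀ (c₀ : V → ℕ) (f₀ : Sym2 V → ℕ), TotalColouringOf H k c₀ f₀ →
        (∀ u ∈ H.verts, ∀ v ∈ H.verts, G.Adj u v → c₀ u ≠ c₀ v) → Extends H k c₀ f₀) ∧
    (∃ C : ℕ, ∀ (V : Type) [Fintype V] (G : SimpleGraph V) (D k b : ℕ) (L : Set V),
      (∀ v, (G.neighborSet v).ncard ≤ D) → D + 1 ≤ k → C ≤ b → 2 * b ≤ k →
      (∀ v, k ≤ 2 * (G.neighborSet v).ncard → v ∈ L) →
      (∀ v, v ∉ L → nbrs G L v ≤ b) → (∀ v ∈ L, nbrs G L v + b + 5 ≤ k) → AllExtend G k) ∧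
    (∃ C : ℕ, ∀ (V : Type) [Fintype V] (G : SimpleGraph V) (D k : ℕ),
      (∀ v, (G.neighborSet v).ncard ≤ D) → D + 1 ≤ k →
      (∀ b : ℕ, C ≤ b → 2 * b < k →
        (∀ v, b < (G.neighborSet v).ncard →
          {w | G.Adj v w ∧ b < (G.neighborSet w).ncard}.ncard + b + 5 ≤ k) → AllExtend G k) ∧
      (C ≤ k →
        (∀ v, k ≤ 2 * (G.neighborSet v).ncard →
          2 * {w | G.Adj v w ∧ k ≤ 2 * (G.neighborSet w).ncard}.ncard + 10 ≤ k) →
        AllExtend G k)) ∧
    (∀ (V : Type) [Fintype V] (G : SimpleGraph V) (D : ℕ) (T : Set V), Core G D (D + 2) T →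
      (∃ X : Set V, ∀ u v, G.Adj u v → u ∈ T → v ∈ T → (u ∈ X ↔ v ∉ X)) →
      ∀ H : G.Subgraph, DistanceThreeMatching H → H.verts ⊆ T →
      ∀ (c₀ : V → ℕ) (f₀ : Sym2 V → ℕ), TotalColouringOf H (D + 2) c₀ f₀ →
        Extends H (D + 2) c₀ f₀) := by
  refine ⟨?_, ?_, ?_, ?_, ?_⟩
  · intro V _ G D k T h c f hcf
    exact Pool.Agent.H8.TE.induced G D k T (core_of h) c f hcf
  · intro c
    obtain ⟨K, hK⟩ := Pool.Agent.H8.TE.constT c
    exact ⟨K, fun V _ G D k m T h hm hk H hT ht c₀ f₀ h0 h1 =>
      hK V G D k m T (core_of h) H hT ht hm hk c₀ f₀ h0 h1⟩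
  · obtain ⟨C, hC⟩ := Pool.Agent.H8.TE.dist3C
    exact ⟨C, fun V _ G D k b L hD hk hb1 hb2 hL h1 h2 H hH c₀ f₀ h0 =>
      hC V G D k b L hD hk hL hb1 hb2 h1 h2 H hH c₀ f₀ h0⟩
  · obtain ⟨C, hC⟩ := Pool.Agent.H8.TE.dist3C'
    exact ⟨C, fun V _ G D k hD hk => ⟨fun b hb1 hb2 h H hH c₀ f₀ h0 =>
      hC V G D k b hD hk hb1 (Or.inl ⟨hb2, h⟩) H hH c₀ f₀ h0,
      fun hb h H hH c₀ f₀ h0 => hC V G D k k hD hk hb (Or.inr ⟨rfl, h⟩) H hH c₀ f₀ h0⟩⟩
  · rintro V _ G D T h ⟨X, hX⟩ H hH hT c₀ f₀ h0
    exact Pool.Agent.H8.TE.bip G D T X (core_of h) hX H hH hT c₀ f₀ h0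

end Pool.Agent.Results.MP_db9399_co.LargeNeighbours
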